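import Pool.Agent.N561.EK.StmX
import Pool.Agent.N861.AX.Kxs
import Pool.Agent.W719.AX.Ker

/-!
# EKX/1: the expansion of the kernel on `DD × DD` (project EK of helper561; helper216)
-/

set_option autoImplicit false

namespace Pool.Agent.N216.EK

open Finset Filter Topology Metric
open Pool.Agent.W711.HT hiding XX S_CONT
open Pool.Agent.N561
open Pool.Agent.N561.EK
open Pool.Agent.N561.AX (S_CONT)
open Pool.Agent.N861.AX (ux_comp ux_cont Rp_diff)
open Pool.Agent.W719.AX (UX S_UXAN kx KXD S_KXC)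
open scoped Real

/-! ### General lemmas -/

/-- uniqueness of the coefficients -/
lemma ux_uniq {E : Type} {Y : ℕ → E → ℂ} {A A' : ℕ → E → ℂ} {S S' : Set E} (h : UX Y A S)
    (h' : UX Y A' S') {p : E} (hp : p ∈ S) (hp' : p ∈ S') (k : ℕ) : A k p = A' k p := by
  induction k using Nat.strong_induction_on with
  | _ k ih =>
    obtain ⟨C, hC⟩ := h (k + 1)
    obtain ⟨C', hC'⟩ := h' (k + 1)
    have key : ∀ᶠ N : ℕ in atTop, ‖A k p - A' k p‖ ≤ (C + C') / N := by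
      filter_upwards [hC, hC', eventually_ge_atTop 1] with N hN1 hN2 hN
      have hNpos : (0 : ℝ) < N := by exact_mod_cast hN
      have hNc : (N : ℂ) ≠ 0 := by exact_mod_cast hNpos.ne'
      have e1 : ∑ j ∈ range k, A j p / (N : ℂ) ^ j = ∑ j ∈ range k, A' j p / (N : ℂ) ^ j :=
        Finset.sum_congr rfl fun j hj => by rw [ih j (Finset.mem_range.1 hj)]
      have e2 : A k p - A' k p = (N : ℂ) ^ k *
          ((Y N p - ∑ j ∈ range (k + 1), A' j p / (N : ℂ) ^ j) -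
            (Y N p - ∑ j ∈ range (k + 1), A j p / (N : ℂ) ^ j)) := by
        rw [Finset.sum_range_succ, Finset.sum_range_succ, e1]
        field_simp
        ring
      rw [e2, norm_mul, norm_pow, Complex.norm_natCast]
      calc (N : ℝ) ^ k * _ ≤ (N : ℝ) ^ k * (C' / (N : ℝ) ^ (k + 1) + C / (N : ℝ) ^ (k + 1)) :=
            mul_le_mul_of_nonneg_left ((norm_sub_le _ _).trans (add_le_add (hN2 p hp') (hN1 p hp)))
              (pow_pos hNpos k).le
        _ = (C + C') / N := by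
            rw [pow_succ]
            field_simp
            ring
    have h0 : Tendsto (fun N : ℕ => (C + C') / (N : ℝ)) atTop (𝓝 0) :=
      tendsto_const_div_atTop_nhds_zero_nat _
    have h1 : ‖A k p - A' k p‖ ≤ 0 := ge_of_tendsto h0 key
    exact sub_eq_zero.1 (norm_le_zero_iff.1 h1)

lemma ux_mono {E : Type} {Y : ℕ → E → ℂ} {A : ℕ → E → ℂ} {S T : Set E} (h : UX Y A S)
    (hs : T ⊆ S) : UX Y A T := fun K => by
  obtain ⟨C, hC⟩ := h K
  exact ⟨C, hC.mono fun N hN p hp => hN p (hs hp)⟩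

lemma ux_congr {E : Type} {Y : ℕ → E → ℂ} {A A' : ℕ → E → ℂ} {S : Set E} (h : UX Y A S)
    (hs : ∀ k, ∀ p ∈ S, A' k p = A k p) : UX Y A' S := fun K => by
  obtain ⟨C, hC⟩ := h K
  refine ⟨C, hC.mono fun N hN p hp => ?_⟩
  have : ∑ k ∈ range K, A' k p / (N : ℂ) ^ k = ∑ k ∈ range K, A k p / (N : ℂ) ^ k :=
    Finset.sum_congr rfl fun k _ => by rw [hs k p hp]
  rw [this]
  exact hN p hp

lemma ux_congrY {E : Type} {Y Y' : ℕ → E → ℂ} {A : ℕ → E → ℂ} {S : Set E} (h : UX Y A S)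
    (hs : ∀ N, ∀ p ∈ S, Y' N p = Y N p) : UX Y' A S := fun K => by
  obtain ⟨C, hC⟩ := h K
  refine ⟨C, hC.mono fun N hN p hp => ?_⟩
  rw [hs N p hp]
  exact hN p hp

lemma ux_union {E : Type} {Y : ℕ → E → ℂ} {A : ℕ → E → ℂ} {S T : Set E} (h : UX Y A S)
    (h' : UX Y A T) : UX Y A (S ∪ T) := fun K => by
  obtain ⟨C, hC⟩ := h K
  obtain ⟨C', hC'⟩ := h' K
  refine ⟨max C C', ?_⟩
  filter_upwards [hC, hC'] with N hN hN' p hp
  have hN0 : (0 : ℝ) ≤ (N : ℝ) ^ K := by positivity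
  rcases hp with hp | hp
  · exact (hN p hp).trans (div_le_div_of_nonneg_right (le_max_left _ _) hN0)
  · exact (hN' p hp).trans (div_le_div_of_nonneg_right (le_max_right _ _) hN0)

lemma ux_empty {E : Type} (Y : ℕ → E → ℂ) (A : ℕ → E → ℂ) : UX Y A ∅ :=
  fun _ => ⟨0, Eventually.of_forall fun _ _ hp => absurd hp (Set.notMem_empty _)⟩

/-- a holomorphic function with constant real part is constant -/
lemma const_of_re {f : ℂ → ℂ} {U : Set ℂ} (hU : IsOpen U) (hUc : Convex ℝ U)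
    (hf : DifferentiableOn ℂ f U) (hre : ∀ z ∈ U, (f z).re = 0) :
    ∀ z ∈ U, ∀ w ∈ U, f z = f w := by
  have hd : ∀ z ∈ U, deriv f z = 0 := by
    intro z hz
    have h1 : HasDerivAt f (deriv f z) z := (hf.differentiableAt (hU.mem_nhds hz)).hasDerivAt
    -- real direction
    have hv : ∀ c : ℂ, (deriv f z * c).re = 0 := by
      intro c
      have h2 : HasDerivAt (fun t : ℝ => z + t * c) c 0 := by
        have h3 : HasDerivAt (fun t : ℝ => (t : ℂ) * c) (1 * c) 0 :=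
          (Complex.ofRealCLM.hasDerivAt (x := (0 : ℝ))).mul_const c
        simpa using h3.const_add z
      have h4 : HasDerivAt (fun t : ℝ => f (z + t * c)) (deriv f z * c) 0 := by
        have h5 : HasDerivAt f (deriv f z) (z + ((0 : ℝ) : ℂ) * c) := by simpa using h1
        have := h5.comp (0 : ℝ) h2
        exact this
      have h6 : HasDerivAt (fun t : ℝ => (f (z + t * c)).re) (deriv f z * c).re 0 :=
        (Complex.reCLM.hasFDerivAt.comp_hasDerivAt (0 : ℝ) h4)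
      have h7 : ∀ᶠ t : ℝ in 𝓝 0, z + t * c ∈ U := by
        have hc : ContinuousAt (fun t : ℝ => z + t * c) 0 := h2.continuousAt
        refine hc (hU.mem_nhds ?_)
        simpa using hz
      have h8 : HasDerivAt (fun t : ℝ => (f (z + t * c)).re) 0 0 := by
        refine (hasDerivAt_const (0 : ℝ) (0 : ℝ)).congr_of_eventuallyEq ?_
        filter_upwards [h7] with t ht
        exact hre _ ht
      exact h6.unique h8
    have h9 := hv 1
    have h10 := hv Complex.I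
    rw [mul_one] at h9
    rw [Complex.mul_I_re] at h10
    exact Complex.ext h9 (by simpa using h10)
  intro z hz w hw
  exact hUc.is_const_of_fderivWithin_eq_zero (𝕜 := ℂ) hf (fun y hy => by
    rw [fderivWithin_of_isOpen hU hy]
    ext
    simp [hd y hy]) hz hw

/-! ### The region `DD` -/

lemma isOpen_DD : IsOpen DD := by
  have h1 : IsOpen {z : ℂ | |z.re| < 21 / 20} :=
    isOpen_lt (Complex.continuous_re.abs) continuous_const
  have h2 : IsOpen {z : ℂ | |z.im| < 1 / 4} :=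
    isOpen_lt (Complex.continuous_im.abs) continuous_const
  exact h1.inter h2

lemma convex_DD : Convex ℝ DD := by
  have h1 : Convex ℝ {z : ℂ | |z.re| < 21 / 20} := by
    have : {z : ℂ | |z.re| < 21 / 20} = Complex.reLm ⁻¹' (Set.Ioo (-(21 / 20)) (21 / 20)) := by
      ext z
      simp [abs_lt]
    rw [this]
    exact (convex_Ioo _ _).linear_preimage _
  have h2 : Convex ℝ {z : ℂ | |z.im| < 1 / 4} := by
    have : {z : ℂ | |z.im| < 1 / 4} = Complex.imLm ⁻¹' (Set.Ioo (-(1 / 4)) (1 / 4)) := by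
      ext z
      simp [abs_lt]
    rw [this]
    exact (convex_Ioo _ _).linear_preimage _
  exact h1.inter h2

lemma zero_DD : (0 : ℂ) ∈ DD := by
  refine ⟨?_, ?_⟩ <;> norm_num

lemma ker_diff1 (N : ℕ) (p : ℂ) : Differentiable ℂ (fun w => ker N w p) := by
  unfold Pool.Agent.W711.HT.ker
  refine Differentiable.fun_sum fun d _ => ?_
  exact ((Rp_diff N d).mul (differentiable_const _)).div_const _

lemma ker_diff2 (N : ℕ) (p : ℂ) : Differentiable ℂ (fun w => ker N p w) := by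
  unfold Pool.Agent.W711.HT.ker
  refine Differentiable.fun_sum fun d _ => ?_
  exact ((differentiable_const _).mul (Rp_diff N d)).div_const _

lemma ker_cont (N : ℕ) : Continuous (fun x : ℂ × ℂ => ker N x.1 x.2) := by
  unfold Pool.Agent.W711.HT.ker
  refine continuous_finsetSum _ fun d _ => ?_
  refine Continuous.div_const ?_ _
  exact ((Rp_diff N d).continuous.comp continuous_fst).mul
    ((Rp_diff N d).continuous.comp continuous_snd)

/-- the normalized kernel -/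
noncomputable def kf (N : ℕ) (x : ℂ × ℂ) : ℂ := ((Real.sqrt N) ^ 3 : ℝ) *
    Complex.exp (-(N * sg x.1 x.2)) * ker N x.1 x.2

/-- there is an expansion near `x` -/
def LA (x : ℂ × ℂ) : Prop := ∃ (v c₀ : ℝ) (A : ℕ → ℂ × ℂ → ℂ), 0 < v ∧ 0 < c₀ ∧
  ball x.1 v ⊆ DD ∧ ball x.2 v ⊆ DD ∧ UX kf A (ball x.1 v ×ˢ ball x.2 v) ∧
  ∀ y ∈ ball x.1 v ×ˢ ball x.2 v, c₀ ≤ ‖A 0 y‖

section pot

variable (hP : POT)
include hP

lemma sg1 {p : ℂ} (hp : p ∈ DD) : DifferentiableOn ℂ (fun w => sg w p) DD := by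
  refine hP.san.comp (f := fun w : ℂ => (w, p)) ?_ ?_
  · exact (differentiable_id.prodMk (differentiable_const p)).differentiableOn
  · intro w hw
    exact ⟨hw, hp⟩

lemma sg2 {w : ℂ} (hw : w ∈ DD) : DifferentiableOn ℂ (fun p => sg w p) DD := by
  refine hP.san.comp (f := fun p : ℂ => (w, p)) ?_ ?_
  · exact ((differentiable_const w).prodMk differentiable_id).differentiableOn
  · intro p hp
    exact ⟨hw, hp⟩

lemma kf_cont (N : ℕ) : ContinuousOn (kf N) (DD ×ˢ DD) := by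
  refine ContinuousOn.mul (ContinuousOn.mul continuousOn_const ?_) (ker_cont N).continuousOn
  exact Complex.continuous_exp.comp_continuousOn
    (ContinuousOn.neg (continuousOn_const.mul hP.san.continuousOn))

lemma kf_d1 (N : ℕ) {p : ℂ} (hp : p ∈ DD) : DifferentiableOn ℂ (fun w => kf N (w, p)) DD := by
  have h1 : DifferentiableOn ℂ (fun w => Complex.exp (-(N * sg w p))) DD :=
    ((sg1 hP hp).const_mul _).neg.cexp
  have h2 : DifferentiableOn ℂ (fun w => (((Real.sqrt N) ^ 3 : ℝ) : ℂ) *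
      Complex.exp (-(N * sg w p)) * Pool.Agent.W711.HT.ker N w p) DD :=
    (h1.const_mul _).mul (ker_diff1 N p).differentiableOn
  exact h2

lemma kf_d2 (N : ℕ) {p : ℂ} (hp : p ∈ DD) : DifferentiableOn ℂ (fun w => kf N (p, w)) DD := by
  have h1 : DifferentiableOn ℂ (fun w => Complex.exp (-(N * sg p w))) DD :=
    ((sg2 hP hp).const_mul _).neg.cexp
  have h2 : DifferentiableOn ℂ (fun w => (((Real.sqrt N) ^ 3 : ℝ) : ℂ) *
      Complex.exp (-(N * sg p w)) * Pool.Agent.W711.HT.ker N p w) DD :=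
    (h1.const_mul _).mul (ker_diff2 N p).differentiableOn
  exact h2

/-- from a nonvanishing coefficient on an open set to `LA` -/
lemma la_of {A : ℕ → ℂ × ℂ → ℂ} {x : ℂ × ℂ} {v : ℝ} (hv : 0 < v) (h1 : ball x.1 v ⊆ DD)
    (h2 : ball x.2 v ⊆ DD) (hu : UX kf A (ball x.1 v ×ˢ ball x.2 v))
    (hnz : ∀ y ∈ ball x.1 v ×ˢ ball x.2 v, A 0 y ≠ 0) : LA x := by
  have hA0 : ContinuousOn (A 0) (ball x.1 v ×ˢ ball x.2 v) :=
    ux_cont hu fun N => (kf_cont hP N).mono (Set.prod_mono h1 h2)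
  have hcomp : IsCompact (closedBall x.1 (v / 2) ×ˢ closedBall x.2 (v / 2)) :=
    (isCompact_closedBall _ _).prod (isCompact_closedBall _ _)
  have hcsub : closedBall x.1 (v / 2) ×ˢ closedBall x.2 (v / 2) ⊆ ball x.1 v ×ˢ ball x.2 v :=
    Set.prod_mono (closedBall_subset_ball (by linarith)) (closedBall_subset_ball (by linarith))
  obtain ⟨x₀, hx₀, hmin⟩ := hcomp.exists_isMinOn (f := fun x => ‖A 0 x‖)
    ⟨x, ⟨mem_closedBall_self (by positivity), mem_closedBall_self (by positivity)⟩⟩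
    (hA0.mono hcsub).norm
  have hsub : ball x.1 (v / 2) ×ˢ ball x.2 (v / 2) ⊆ ball x.1 v ×ˢ ball x.2 v :=
    Set.prod_mono (ball_subset_ball (by linarith)) (ball_subset_ball (by linarith))
  refine ⟨v / 2, ‖A 0 x₀‖, A, by positivity, norm_pos_iff.2 (hnz x₀ (hcsub hx₀)),
    (ball_subset_ball (by linarith)).trans h1, (ball_subset_ball (by linarith)).trans h2,
    ux_mono hu hsub, fun y hy => hmin ?_⟩
  exact Set.prod_mono ball_subset_closedBall ball_subset_closedBall hy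

/-- the expansion at the origin -/
lemma la_zero (hK : KMW) (hKer : S_KER) (hKX : S_KXC) : LA (0, 0) := by
  obtain ⟨ρ, τ, κ, c, s, dl, hD⟩ := hKer
  obtain ⟨ρ₂, τ₂, hρ, hτ, A, hA⟩ := hKX ρ τ κ c s dl hD
  obtain ⟨v, hv⟩ : ∃ v : ℝ, v = min (min ρ₂ τ₂) (1 / 8) := ⟨_, rfl⟩
  have hv0 : 0 < v := by
    rw [hv]
    exact lt_min (lt_min hA.hρ hA.hτ) (by norm_num)
  have hvρ : v ≤ ρ₂ := by rw [hv]; exact (min_le_left _ _).trans (min_le_left _ _)
  have hvτ : v ≤ τ₂ := by rw [hv]; exact (min_le_left _ _).trans (min_le_right _ _)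
  have hv8 : v ≤ 1 / 8 := by rw [hv]; exact min_le_right _ _
  have hb : ∀ z ∈ ball (0 : ℂ) v, |z.re| < v ∧ |z.im| < v := fun z hz => by
    rw [mem_ball_zero_iff] at hz
    exact ⟨(Complex.abs_re_le_norm z).trans_lt hz, (Complex.abs_im_le_norm z).trans_lt hz⟩
  have hbR : ball (0 : ℂ) v ⊆ Rc ρ₂ τ₂ := fun z hz =>
    ⟨(hb z hz).1.trans_le hvρ, (hb z hz).2.trans_le hvτ⟩
  have hbR3 : ball (0 : ℂ) v ⊆ Rc (3 * ρ) (3 * τ) := fun z hz =>
    ⟨(hb z hz).1.trans_le (by linarith [hD.hρ.1]), (hb z hz).2.trans_le (by linarith [hD.hτ.1])⟩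
  have hbD : ball (0 : ℂ) v ⊆ DD := fun z hz =>
    ⟨(hb z hz).1.trans_le (by linarith), (hb z hz).2.trans_le (by linarith)⟩
  -- the real parts agree
  have hre : ∀ ψ ∈ ball (0 : ℂ) v, ∀ φ ∈ ball (0 : ℂ) v, (s ψ φ - sg ψ φ).re = 0 := by
    intro ψ hψ φ hφ
    have key : ∀ ε : ℝ, 0 < ε → |(s ψ φ - sg ψ φ).re| ≤ 2 * ε := by
      intro ε hε
      obtain ⟨N, h1, h2, hN⟩ := ((hD.mw ε hε).and ((hK {ψ, φ} (by
        rintro z (rfl | rfl)
        · exact hbD hψ
        · exact hbD hφ) (Set.toFinite _).isCompact ε hε).and (eventually_ge_atTop 1))).exists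
      have h3 := (h1 ψ (hbR3 hψ) φ (hbR3 hφ)).2
      have h4 := (h2 ψ (Or.inl rfl) φ (Or.inr rfl)).2
      have hNpos : (0 : ℝ) < N := by exact_mod_cast hN
      rw [Complex.sub_re]
      rw [abs_le] at h3 h4 ⊢
      constructor
      · by_contra hcon
        push Not at hcon
        nlinarith [mul_pos hNpos (sub_pos.2 hcon)]
      · by_contra hcon
        push Not at hcon
        nlinarith [mul_pos hNpos (sub_pos.2 hcon)]
    by_contra hne
    have := key (|(s ψ φ - sg ψ φ).re| / 4) (by positivity)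
    have := abs_pos.2 hne
    linarith
  have hs1 : ∀ p ∈ ball (0 : ℂ) v, DifferentiableOn ℂ (fun w => s w p) (ball 0 v) := by
    intro p hp
    refine hD.san.comp (f := fun w : ℂ => (w, p)) ?_ ?_
    · exact (differentiable_id.prodMk (differentiable_const p)).differentiableOn
    · intro w hw
      exact ⟨hbR3 hw, hbR3 hp⟩
  have hs2 : ∀ w ∈ ball (0 : ℂ) v, DifferentiableOn ℂ (fun p => s w p) (ball 0 v) := by
    intro w hw
    refine hD.san.comp (f := fun p : ℂ => (w, p)) ?_ ?_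
    · exact ((differentiable_const w).prodMk differentiable_id).differentiableOn
    · intro p hp
      exact ⟨hbR3 hw, hbR3 hp⟩
  have h0 : (0 : ℂ) ∈ ball (0 : ℂ) v := mem_ball_self hv0
  have heq : ∀ ψ ∈ ball (0 : ℂ) v, ∀ φ ∈ ball (0 : ℂ) v, sg ψ φ = s ψ φ := by
    intro ψ hψ φ hφ
    have e1 : s ψ φ - sg ψ φ = s 0 φ - sg 0 φ :=
      const_of_re (f := fun w => s w φ - sg w φ) isOpen_ball (convex_ball _ _)
        ((hs1 φ hφ).sub ((sg1 hP (hbD hφ)).mono hbD)) (fun z hz => hre z hz φ hφ) ψ hψ 0 h0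
    have e2 : s 0 φ - sg 0 φ = s 0 0 - sg 0 0 :=
      const_of_re (f := fun p => s 0 p - sg 0 p) isOpen_ball (convex_ball _ _)
        ((hs2 0 h0).sub ((sg2 hP (hbD h0)).mono hbD)) (fun z hz => hre 0 h0 z hz) φ hφ 0 h0
    have e3 : s 0 0 - sg 0 0 = 0 := by rw [hD.zero, hP.zero, sub_self]
    exact (sub_eq_zero.1 (e1.trans (e2.trans e3))).symm
  refine la_of hP (x := (0, 0)) (v := v) (A := A) hv0 hbD hbD ?_ ?_
  · refine ux_congrY (ux_mono hA.ux (Set.prod_mono hbR hbR)) ?_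
    rintro N ⟨ψ, φ⟩ ⟨hψ, hφ⟩
    simp only [kf, kx]
    rw [heq ψ hψ φ hφ]
  · intro y hy
    exact hA.nz y (Set.prod_mono hbR hbR hy)

/-- continuation -/
lemma la_loc (hK : KMW) (hC : S_CONT) {x : ℂ × ℂ} (hx1 : x.1 ∈ DD) (hx2 : x.2 ∈ DD) :
    ∃ δ : ℝ, 0 < δ ∧ ∀ y ∈ ball x.1 δ ×ˢ ball x.2 δ, LA y → ∀ z ∈ ball x.1 δ ×ˢ ball x.2 δ,
      LA z := by
  obtain ⟨R₁, hR₁, hb1⟩ := Metric.nhds_basis_closedBall.mem_iff.1 (isOpen_DD.mem_nhds hx1)
  obtain ⟨R₂, hR₂, hb2⟩ := Metric.nhds_basis_closedBall.mem_iff.1 (isOpen_DD.mem_nhds hx2)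
  obtain ⟨R, hR⟩ : ∃ R : ℝ, R = min R₁ R₂ := ⟨_, rfl⟩
  have hR0 : 0 < R := by rw [hR]; exact lt_min hR₁ hR₂
  have hRb1 : closedBall x.1 R ⊆ DD :=
    (closedBall_subset_closedBall (by rw [hR]; exact min_le_left _ _)).trans hb1
  have hRb2 : closedBall x.2 R ⊆ DD :=
    (closedBall_subset_closedBall (by rw [hR]; exact min_le_right _ _)).trans hb2
  refine ⟨R / 8, by positivity, ?_⟩
  rintro ⟨ψ₁, φ₁⟩ ⟨hψ₁, hφ₁⟩ ⟨v', c₀, A, hv', hc₀, -, -, hux', hlow'⟩ ⟨ψ₂, φ₂⟩ ⟨hψ₂, hφ₂⟩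
  simp only at hψ₁ hφ₁ hψ₂ hφ₂ hux' hlow'
  obtain ⟨v, hv⟩ : ∃ v : ℝ, v = min v' (R / 8) := ⟨_, rfl⟩
  have hv0 : 0 < v := by rw [hv]; exact lt_min hv' (by positivity)
  have hvv : v ≤ v' := by rw [hv]; exact min_le_left _ _
  have hvR : v ≤ R / 8 := by rw [hv]; exact min_le_right _ _
  have hsv : ball ψ₁ v ×ˢ ball φ₁ v ⊆ ball ψ₁ v' ×ˢ ball φ₁ v' :=
    Set.prod_mono (ball_subset_ball hvv) (ball_subset_ball hvv)
  have hd₁ : dist ψ₁ x.1 < R / 8 := mem_ball.1 hψ₁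
  have hd₂ : dist φ₁ x.2 < R / 8 := mem_ball.1 hφ₁
  have hd₃ : dist ψ₂ x.1 < R / 8 := mem_ball.1 hψ₂
  have hd₄ : dist φ₂ x.2 < R / 8 := mem_ball.1 hφ₂
  have hB1 : ball ψ₁ (R / 2) ⊆ closedBall x.1 R :=
    (ball_subset_ball' (by linarith)).trans ball_subset_closedBall
  have hB2 : ball φ₁ (R / 2) ⊆ closedBall x.2 R :=
    (ball_subset_ball' (by linarith)).trans ball_subset_closedBall
  have hB3 : ball ψ₂ (R / 8) ⊆ ball ψ₁ (3 * R / 8) := by
    refine ball_subset_ball' ?_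
    have := dist_triangle_right ψ₂ ψ₁ x.1
    linarith
  have hB4 : ball φ₂ (R / 8) ⊆ ball φ₁ (3 * R / 8) := by
    refine ball_subset_ball' ?_
    have := dist_triangle_right φ₂ φ₁ x.2
    linarith
  have hS1 : ball φ₁ v ⊆ closedBall x.2 R := (ball_subset_ball (by linarith)).trans hB2
  have hS2 : ball ψ₁ (3 * R / 8) ⊆ closedBall x.1 R :=
    (ball_subset_ball (by linarith)).trans hB1
  -- bounds
  have hcomp : IsCompact (closedBall x.1 R ×ˢ closedBall x.2 R) :=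
    (isCompact_closedBall _ _).prod (isCompact_closedBall _ _)
  obtain ⟨B, hB⟩ := hcomp.exists_bound_of_continuousOn
    (hP.san.continuousOn.mono (Set.prod_mono hRb1 hRb2))
  have hlog : ∀ ε : ℝ, 0 < ε → ∀ᶠ N : ℕ in atTop, ∀ ψ ∈ closedBall x.1 R,
      ∀ φ ∈ closedBall x.2 R, ker N ψ φ ≠ 0 ∧
        |Real.log ‖ker N ψ φ‖ - N * (sg ψ φ).re| ≤ ε * N := by
    intro ε hε
    filter_upwards [hK (closedBall x.1 R ∪ closedBall x.2 R) (Set.union_subset hRb1 hRb2)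
      ((isCompact_closedBall _ _).union (isCompact_closedBall _ _)) ε hε] with N hN ψ hψ φ hφ
    exact hN ψ (Or.inl hψ) φ (Or.inr hφ)
  -- first variable
  obtain ⟨A', c₁, hc₁, hux1, -, hlow1⟩ := hC ψ₁ v (3 * R / 8) (R / 2) hv0 (by linarith)
    (by linarith) ℂ (ball φ₁ v) (fun N x => ker N x.1 x.2) (fun x => sg x.1 x.2)
    (fun N => (((Real.sqrt N) ^ 3 : ℝ) : ℂ)) B c₀ A
    (Eventually.of_forall fun N q _ => (ker_diff1 N q).differentiableOn)
    (fun q hq => (sg1 hP (hRb2 (hS1 hq))).mono (hB1.trans hRb1))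
    (fun y hy => hB y ⟨hB1 hy.1, hS1 hy.2⟩)
    (fun ε hε => by
      filter_upwards [hlog ε hε] with N hN y hy
      exact hN y.1 (hB1 hy.1) y.2 (hS1 hy.2))
    (ux_mono hux' hsv) hc₀ (fun y hy => hlow' y (hsv hy))
  -- second variable
  obtain ⟨A'', c₂, hc₂, hux2, -, hlow2⟩ := hC φ₁ v (3 * R / 8) (R / 2) hv0 (by linarith)
    (by linarith) ℂ (ball ψ₁ (3 * R / 8)) (fun N x => ker N x.2 x.1) (fun x => sg x.2 x.1)
    (fun N => (((Real.sqrt N) ^ 3 : ℝ) : ℂ)) B c₁ (fun n x => A' n (x.2, x.1))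
    (Eventually.of_forall fun N q _ => (ker_diff2 N q).differentiableOn)
    (fun q hq => (sg2 hP (hRb1 (hS2 hq))).mono (hB2.trans hRb2))
    (fun y hy => hB (y.2, y.1) ⟨hS2 hy.2, hB2 hy.1⟩)
    (fun ε hε => by
      filter_upwards [hlog ε hε] with N hN y hy
      exact hN y.2 (hS2 hy.2) y.1 (hB2 hy.1))
    (ux_comp (f := fun x : ℂ × ℂ => (x.2, x.1)) hux1 fun y hy => ⟨hy.2, hy.1⟩)
    hc₁ (fun y hy => hlow1 (y.2, y.1) ⟨hy.2, hy.1⟩)
  refine ⟨R / 8, c₂, fun n x => A'' n (x.2, x.1), by positivity, hc₂,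
    (hB3.trans hS2).trans hRb1,
    ((hB4.trans (ball_subset_ball (by linarith))).trans hB2).trans hRb2, ?_, ?_⟩
  · exact ux_comp (f := fun x : ℂ × ℂ => (x.2, x.1)) hux2 fun y hy => ⟨hB4 hy.2, hB3 hy.1⟩
  · intro y hy
    exact hlow2 (y.2, y.1) ⟨hB4 hy.2, hB3 hy.1⟩

lemma la_all (hK : KMW) (hC : S_CONT) (hKer : S_KER) (hKX : S_KXC) :
    ∀ x ∈ DD ×ˢ DD, LA x := by
  intro x hx
  have hpre : IsPreconnected (DD ×ˢ DD) := (convex_DD.prod convex_DD).isPreconnected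
  have h0 : ((0 : ℂ), (0 : ℂ)) ∈ DD ×ˢ DD := ⟨zero_DD, zero_DD⟩
  refine hpre.induction₂' (fun x y => LA x → LA y) ?_ ?_ h0 hx (la_zero hP hK hKer hKX)
  · intro y hy
    obtain ⟨δ, hδ, h⟩ := la_loc hP hK hC hy.1 hy.2
    have hself : y ∈ ball y.1 δ ×ˢ ball y.2 δ := ⟨mem_ball_self hδ, mem_ball_self hδ⟩
    have hn : ball y.1 δ ×ˢ ball y.2 δ ∈ 𝓝 y :=
      (isOpen_ball.prod isOpen_ball).mem_nhds hself
    filter_upwards [nhdsWithin_le_nhds hn] with z hz
    exact ⟨fun hy' => h y hself hy' z hz, fun hz' => h z hz hz' y hself⟩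
  · intro x y z _ _ _ h1 h2 h3
    exact h2 (h1 h3)

end pot

/-- EKX/1 -/
theorem kxf (hC : S_CONT) (hKer : S_KER) (hKX : S_KXC) : S_KXF := by
  classical
  intro hP hK
  have hall := la_all hP hK hC hKer hKX
  choose! v c A hv hc hb1 hb2 hux hlow using hall
  -- the coefficients
  have hag : ∀ x ∈ DD ×ˢ DD, ∀ y ∈ ball x.1 (v x) ×ˢ ball x.2 (v x), ∀ k : ℕ,
      A y k y = A x k y := by
    intro x hx y hy k
    have hy' : y ∈ DD ×ˢ DD := ⟨hb1 x hx hy.1, hb2 x hx hy.2⟩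
    exact ux_uniq (hux y hy') (hux x hx) ⟨mem_ball_self (hv y hy'), mem_ball_self (hv y hy')⟩ hy k
  have hux' : ∀ x ∈ DD ×ˢ DD, UX kf (fun k y => A y k y) (ball x.1 (v x) ×ˢ ball x.2 (v x)) :=
    fun x hx => ux_congr (hux x hx) fun k y hy => hag x hx y hy k
  have hself : ∀ x ∈ DD ×ˢ DD, x ∈ ball x.1 (v x) ×ˢ ball x.2 (v x) := fun x hx =>
    ⟨mem_ball_self (hv x hx), mem_ball_self (hv x hx)⟩
  refine ⟨fun k y => A y k y, ?_, ?_, ?_, ?_⟩
  · intro V hV hVc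
    refine (hVc.prod hVc).induction_on (p := fun S => UX kf (fun k y => A y k y) S)
      (ux_empty _ _) (fun s t hst ht => ux_mono ht hst) (fun s t hs ht => ux_union hs ht) ?_
    intro x hx
    have hx' : x ∈ DD ×ˢ DD := Set.prod_mono hV hV hx
    exact ⟨_, nhdsWithin_le_nhds ((isOpen_ball.prod isOpen_ball).mem_nhds (hself x hx')),
      hux' x hx'⟩
  · intro n p hp w hw
    have hx : (w, p) ∈ DD ×ˢ DD := ⟨hw, hp⟩
    have h0 : UX (fun N w' => kf N (w', p)) (fun k w' => A (w', p) k (w', p))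
        (ball w (v (w, p))) :=
      ux_comp (Y := kf) (A := fun k y => A y k y) (f := fun w' : ℂ => (w', p)) (hux' (w, p) hx)
        fun w' hw' => ⟨hw', mem_ball_self (hv _ hx)⟩
    have h1 := Pool.Agent.W303.AX.uxan _ _ _ isOpen_ball
      (Eventually.of_forall fun N => (kf_d1 hP N hp).mono (hb1 _ hx)) h0 n
    exact (h1.differentiableAt (ball_mem_nhds w (hv _ hx))).differentiableWithinAt
  · intro n p hp w hw
    have hx : (p, w) ∈ DD ×ˢ DD := ⟨hp, hw⟩
    have h0 : UX (fun N w' => kf N (p, w')) (fun k w' => A (p, w') k (p, w'))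
        (ball w (v (p, w))) :=
      ux_comp (Y := kf) (A := fun k y => A y k y) (f := fun w' : ℂ => (p, w')) (hux' (p, w) hx)
        fun w' hw' => ⟨mem_ball_self (hv _ hx), hw'⟩
    have h1 := Pool.Agent.W303.AX.uxan _ _ _ isOpen_ball
      (Eventually.of_forall fun N => (kf_d2 hP N hp).mono (hb2 _ hx)) h0 n
    exact (h1.differentiableAt (ball_mem_nhds w (hv _ hx))).differentiableWithinAt
  · intro x hx h0
    have h1 := hlow x hx x (hself x hx)
    have h2 : A x 0 x = 0 := h0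
    rw [h2, norm_zero] at h1
    linarith [hc x hx]

end Pool.Agent.N216.EK
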